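import Pool.Agent.H120Z.Rob.Main

namespace Pool.Agent.Results.MP_742028_co.ARobZero

open Pool.Agent.H120Z.Rob

theorem result (r : ℕ) (hr : 2 ≤ r) (W : Type) [Finite W] (H : SimpleGraph W)
    (h : RamseyInfinite r H) :
    IsGLB {x : ℝ | ∃ G : FinGraph, IsMinimal r H G.2 ∧ x = rob r H G.2} 0 :=
  main (by omega) H h

end Pool.Agent.Results.MP_742028_co.ARobZero
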